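import Pool.Agent.CSG.LDb
import Pool.Agent.CSG.FunBasic
import Pool.Agent.CSG.Radial

/-!
# SPI/Push: small translations with compact support
-/

open scoped ContDiff Topology
open Set Filter
open Pool.Agent.CSG (stp)

namespace Pool.Agent.SPI

/-- cutoff: `1` for `‖x‖ ≤ δ`, `0` for `‖x‖ ≥ 2 δ`. -/
noncomputable def cutb {E : Type*} [NormedAddCommGroup E] (δ : ℝ) (x : E) : ℝ :=
  1 - stp 1 4 (‖x‖ ^ 2 / δ ^ 2)

section
variable {E : Type*} [NormedAddCommGroup E]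

theorem cutb_nonneg (δ : ℝ) (x : E) : 0 ≤ cutb δ x := sub_nonneg.2 (CSG.stp_le_one _ _ _)
theorem cutb_le_one (δ : ℝ) (x : E) : cutb δ x ≤ 1 := by
  have := CSG.stp_nonneg 1 4 (‖x‖ ^ 2 / δ ^ 2)
  unfold cutb; linarith

theorem cutb_one {δ : ℝ} (hδ : 0 < δ) {x : E} (h : ‖x‖ ≤ δ) : cutb δ x = 1 := by
  unfold cutb
  rw [CSG.stp_zero (by norm_num), sub_zero]
  rw [div_le_one (by positivity)]
  exact pow_le_pow_left₀ (norm_nonneg x) h 2

theorem cutb_zero {δ : ℝ} (hδ : 0 < δ) {x : E} (h : 2 * δ ≤ ‖x‖) : cutb δ x = 0 := by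
  unfold cutb
  rw [CSG.stp_one (by norm_num), sub_self]
  rw [le_div_iff₀ (by positivity)]
  calc 4 * δ ^ 2 = (2 * δ) ^ 2 := by ring
    _ ≤ ‖x‖ ^ 2 := pow_le_pow_left₀ (by positivity) h 2

variable [InnerProductSpace ℝ E]

theorem cutb_smooth (δ : ℝ) : ContDiff ℝ ∞ (cutb δ : E → ℝ) := by
  unfold cutb
  exact contDiff_const.sub ((CSG.stp_smooth 1 4).comp ((contDiff_norm_sq ℝ).div_const _))

theorem cutb_lip : ∃ C : ℝ, 0 < C ∧ ∀ (δ : ℝ), 0 < δ → ∀ x y : E,
    |cutb δ x - cutb δ y| ≤ C / δ * ‖x - y‖ := by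
  obtain ⟨C₀, hC₀, hlip⟩ := CSG.smoothTransition_lip
  have key : ∀ (δ : ℝ), 0 < δ → ∀ x y : E, ‖x‖ ≤ 3 * δ → ‖y‖ ≤ 3 * δ →
      |cutb δ x - cutb δ y| ≤ 2 * C₀ / δ * ‖x - y‖ := by
    intro δ hδ x y hx hy
    have h1 : cutb δ x - cutb δ y = stp 1 4 (‖y‖ ^ 2 / δ ^ 2) - stp 1 4 (‖x‖ ^ 2 / δ ^ 2) := by
      unfold cutb; ring
    rw [h1]
    unfold stp
    refine (hlip _ _).trans ?_
    have h2 : (‖y‖ ^ 2 / δ ^ 2 - 1) / (4 - 1) - (‖x‖ ^ 2 / δ ^ 2 - 1) / (4 - 1) =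
        (‖y‖ + ‖x‖) * (‖y‖ - ‖x‖) / (3 * δ ^ 2) := by
      field_simp; ring
    rw [h2, abs_div, abs_mul, abs_of_nonneg (by positivity : 0 ≤ ‖y‖ + ‖x‖),
      abs_of_pos (by positivity : 0 < 3 * δ ^ 2)]
    have h3 : |‖y‖ - ‖x‖| ≤ ‖x - y‖ := by
      rw [abs_sub_comm]; exact abs_norm_sub_norm_le x y
    have h4 : (‖y‖ + ‖x‖) * |‖y‖ - ‖x‖| ≤ (6 * δ) * ‖x - y‖ := by
      apply mul_le_mul (by linarith) h3 (abs_nonneg _) (by positivity)
    calc C₀ * ((‖y‖ + ‖x‖) * |‖y‖ - ‖x‖| / (3 * δ ^ 2)) ≤ C₀ * ((6 * δ) * ‖x - y‖ / (3 * δ ^ 2)) := by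
          gcongr
      _ = 2 * C₀ / δ * ‖x - y‖ := by field_simp; ring
  refine ⟨2 * C₀ + 1, by positivity, ?_⟩
  intro δ hδ x y
  have hC : 2 * C₀ / δ * ‖x - y‖ ≤ (2 * C₀ + 1) / δ * ‖x - y‖ := by gcongr; linarith
  by_cases hx : ‖x‖ ≤ 3 * δ
  · by_cases hy : ‖y‖ ≤ 3 * δ
    · exact (key δ hδ x y hx hy).trans hC
    · by_cases hx2 : ‖x‖ ≤ 2 * δ
      · have h5 : δ ≤ ‖x - y‖ := by
          have := norm_sub_norm_le y x
          rw [norm_sub_rev] at this
          linarith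
        have h6 : |cutb δ x - cutb δ y| ≤ 1 := by
          have := cutb_nonneg δ x; have := cutb_nonneg δ y
          have := cutb_le_one δ x; have := cutb_le_one δ y
          rw [abs_le]; constructor <;> linarith
        refine h6.trans ?_
        rw [div_mul_eq_mul_div, le_div_iff₀ hδ]
        nlinarith
      · rw [cutb_zero hδ (by linarith), cutb_zero hδ (by linarith), sub_self, abs_zero]
        positivity
  · by_cases hy : ‖y‖ ≤ 2 * δ
    · have h5 : δ ≤ ‖x - y‖ := by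
        have := norm_sub_norm_le x y
        linarith
      have h6 : |cutb δ x - cutb δ y| ≤ 1 := by
        have := cutb_nonneg δ x; have := cutb_nonneg δ y
        have := cutb_le_one δ x; have := cutb_le_one δ y
        rw [abs_le]; constructor <;> linarith
      refine h6.trans ?_
      rw [div_mul_eq_mul_div, le_div_iff₀ hδ]
      nlinarith
    · rw [cutb_zero hδ (by linarith), cutb_zero hδ (by linarith), sub_self, abs_zero]
      positivity

variable [FiniteDimensional ℝ E]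

/-- A family of maps `id + g s` with `g s` smooth and `1/2`-Lipschitz is a smooth family of
permutations. -/
theorem exists_perm_of_lip (g : ℝ → E → E) (hg : ContDiff ℝ ∞ fun q : E × ℝ => g q.2 q.1)
    (hl : ∀ s x y, ‖g s x - g s y‖ ≤ 1 / 2 * ‖x - y‖) :
    ∃ f : ℝ → Equiv.Perm E, (ContDiff ℝ ∞ fun q : E × ℝ => f q.2 q.1) ∧
      (ContDiff ℝ ∞ fun q : E × ℝ => (f q.2).symm q.1) ∧ ∀ s x, f s x = x + g s x := by
  have : CompleteSpace E := FiniteDimensional.complete ℝ E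
  have happ : ∀ s, ApproximatesLinearOn (fun x => x + g s x)
      ((ContinuousLinearEquiv.refl ℝ E : E ≃L[ℝ] E) : E →L[ℝ] E) univ (1 / 2) := by
    intro s x _ y _
    have e : x + g s x - (y + g s y) - ((ContinuousLinearEquiv.refl ℝ E : E ≃L[ℝ] E) : E →L[ℝ] E)
        (x - y) = g s x - g s y := by
      simp; abel
    rw [e]
    have := hl s x y
    simpa using this
  have hN : Subsingleton E ∨ (1 / 2 : NNReal) <
      (‖(((ContinuousLinearEquiv.refl ℝ E).symm : E ≃L[ℝ] E) : E →L[ℝ] E)‖₊)⁻¹ := by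
    by_cases hs : Subsingleton E
    · exact Or.inl hs
    · right
      have : Nontrivial E := not_subsingleton_iff_nontrivial.1 hs
      have h1 : ‖(((ContinuousLinearEquiv.refl ℝ E).symm : E ≃L[ℝ] E) : E →L[ℝ] E)‖₊ = 1 := by
        have : (((ContinuousLinearEquiv.refl ℝ E).symm : E ≃L[ℝ] E) : E →L[ℝ] E) =
          ContinuousLinearMap.id ℝ E := rfl
        rw [this]
        exact ContinuousLinearMap.nnnorm_id
      rw [h1]
      norm_num
  let f : ℝ → Equiv.Perm E := fun s => ((happ s).toHomeomorph _ hN).toEquiv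
  have hfx : ∀ s x, f s x = x + g s x := fun s x => rfl
  have hf : ContDiff ℝ ∞ fun q : E × ℝ => f q.2 q.1 := by
    have : (fun q : E × ℝ => f q.2 q.1) = fun q => q.1 + g q.2 q.1 := by
      ext q; exact hfx q.2 q.1
    rw [this]
    exact contDiff_fst.add hg
  refine ⟨f, hf, ?_, hfx⟩
  refine CSG.smooth_symm_of_family hf ?_ rfl
  intro x s v hv
  have hd : DifferentiableAt ℝ (f s) x := by
    have h1 : ContDiff ℝ ∞ (f s) := by
      have : (f s : E → E) = (fun q : E × ℝ => f q.2 q.1) ∘ fun x => (x, s) := rfl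
      rw [this]
      exact hf.comp (contDiff_id.prodMk contDiff_const)
    exact h1.differentiable (by simp) x
  refine CSG.fderiv_inj_of_lower hd (c := 1 / 2) (by norm_num) ?_ v hv
  filter_upwards with y
  rw [hfx, hfx]
  have h1 := hl s y x
  have h2 : ‖y - x‖ ≤ ‖y + g s y - (x + g s x)‖ + ‖g s y - g s x‖ := by
    have e : y - x = (y + g s y - (x + g s x)) - (g s y - g s x) := by abel
    calc ‖y - x‖ = ‖(y + g s y - (x + g s x)) - (g s y - g s x)‖ := by rw [← e]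
      _ ≤ _ := norm_sub_le _ _
  linarith

/-- Small translations with compact support. -/
theorem exists_push (E : Type*) [NormedAddCommGroup E] [InnerProductSpace ℝ E]
    [FiniteDimensional ℝ E] :
    ∃ ϰ : ℝ, 0 < ϰ ∧ ∀ (δ : ℝ), 0 < δ → ∀ c w : ℝ → E, ContDiff ℝ ∞ c →
    ContDiff ℝ ∞ w → (∀ s, ‖w s‖ ≤ ϰ * δ) → ∃ f : ℝ → Equiv.Perm E,
      (ContDiff ℝ ∞ fun q : E × ℝ => f q.2 q.1) ∧
      (ContDiff ℝ ∞ fun q : E × ℝ => (f q.2).symm q.1) ∧
      (∀ s x, ‖x - c s‖ ≤ δ → f s x = x + w s) ∧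
      (∀ s x, 2 * δ ≤ ‖x - c s‖ → f s x = x) ∧ (∀ s x, w s = 0 → f s x = x) := by
  obtain ⟨C, hC, hlip⟩ := cutb_lip (E := E)
  refine ⟨1 / (2 * C), by positivity, ?_⟩
  intro δ hδ c w hc hw hsmall
  obtain ⟨f, h1, h2, h3⟩ := exists_perm_of_lip (fun s x => cutb δ (x - c s) • w s)
    (by
      refine ContDiff.smul ?_ (hw.comp contDiff_snd)
      exact (cutb_smooth δ).comp (contDiff_fst.sub (hc.comp contDiff_snd)))
    (by
      intro s x y
      rw [← sub_smul, norm_smul, Real.norm_eq_abs]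
      calc |cutb δ (x - c s) - cutb δ (y - c s)| * ‖w s‖
          ≤ (C / δ * ‖(x - c s) - (y - c s)‖) * (1 / (2 * C) * δ) := by
            apply mul_le_mul (hlip δ hδ _ _) (hsmall s) (norm_nonneg _) (by positivity)
        _ = 1 / 2 * ‖x - y‖ := by
            rw [sub_sub_sub_cancel_right]; field_simp)
  refine ⟨f, h1, h2, ?_, ?_, ?_⟩
  · intro s x hx
    rw [h3, cutb_one hδ hx, one_smul]
  · intro s x hx
    rw [h3, cutb_zero hδ hx, zero_smul, add_zero]
  · intro s x hx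
    rw [h3, hx, smul_zero, add_zero]

end

end Pool.Agent.SPI
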